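import Pool.Agent.H291.Jpq.Final

/-!
Canonical Schur functions of left regular `j`-inner functions.
-/

set_option autoImplicit false

open Pool.Agent.H291.Jpq

namespace Pool.Agent.Results.MP_00ee12_an.EtaLeftRegular

/-- A matrix function `f` is the canonical Schur function `W₁₂ W₂₂⁻¹` of some left regular
`j`-inner function `W` if and only if it is the canonical Schur function of some `j`-inner
function. -/
theorem result (p q : ℕ) (f : ℂ → Matrix (Fin p) (Fin q) ℂ) :
    (∃ W : ℂ → Matrix (Fin p ⊕ Fin q) (Fin p ⊕ Fin q) ℂ, JInner W ∧ LeftRegular W ∧ IsEta W f) ↔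
      ∃ W : ℂ → Matrix (Fin p ⊕ Fin q) (Fin p ⊕ Fin q) ℂ, JInner W ∧ IsEta W f :=
  ⟨fun ⟨W, h1, _, h3⟩ => ⟨W, h1, h3⟩, fun ⟨_, h1, h2⟩ => eta_left_regular h1 h2⟩

end Pool.Agent.Results.MP_00ee12_an.EtaLeftRegular
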